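import Pool.Agent.Helper97.FS.E5

set_option autoImplicit false

namespace Pool.Agent.Helper97.FS

open Finset MeasureTheory Filter Topology UnitAddTorus
open scoped ComplexConjugate
open Pool.Agent.Helper97.Sub

theorem D_tsum {n : ℕ} {I : Type} [Fintype I] (f : (Fin n → ℤ) → I → ℂ)
    (hf : {m | ∃ i, f m i ≠ 0}.Finite) :
    ∑' p : (Fin n → ℤ) × I, f p.1 p.2 = ∑ᶠ m, ∑ i, f m i := by
  classical
  rw [tsum_eq_sum (s := hf.toFinset ×ˢ univ)]
  · rw [sum_product, finsum_eq_sum_of_support_subset]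
    intro m hm
    rw [Function.mem_support] at hm
    rw [Finset.mem_coe, Set.Finite.mem_toFinset]
    by_contra hcon
    apply hm
    apply sum_eq_zero
    intro i _
    by_contra h0
    exact hcon ⟨i, h0⟩
  · rintro ⟨m, i⟩ hp
    by_contra h0
    apply hp
    rw [mem_product]
    exact ⟨(Set.Finite.mem_toFinset hf).2 ⟨i, h0⟩, mem_univ _⟩

theorem st_D (h : Pool.Agent.Helper51.FS.ST_DIM) : ST_D := by
  intro s n I _ v g hv hg hfin R0 hR0 GG hGG hsol
  have hu : ∀ m : Fin n → ℤ,
      Pool.Agent.Helper51.FS.dotu (fun i => v (Pi.single i 1)) m = 0 → m = 0 := by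
    intro m hm
    rw [E5_dotu] at hm
    exact hv (by rw [hm, map_zero])
  -- finite supports
  have hfs : ∀ (η : UnitAddTorus (Fin s)) (K : (Fin n → ℤ) → I → ℂ) (t R : ℝ)
      (m1 : Fin n → ℤ), (∀ m, R < |v m + t| → K m = 0) →
      {m | ∃ i, g i (m1 - m) η * K m i ≠ 0}.Finite := by
    intro η K t R m1 hK
    refine ((hfin (|v m1 + t| + R)).image (fun r => m1 - r)).subset ?_
    rintro m ⟨i, hi⟩
    refine ⟨m1 - m, ⟨?_, i, ?_⟩, by simp⟩
    · have h1 : |v m + t| ≤ R := by
        by_contra hcon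
        push Not at hcon
        apply hi
        rw [hK m hcon]
        simp
      rw [map_sub]
      have e : v m1 - v m = (v m1 + t) - (v m + t) := by ring
      rw [e]
      exact (abs_sub _ _).trans (by linarith)
    · intro h0
      apply hi
      rw [h0]
      simp
  have key := h n s I (fun i => v (Pi.single i 1)) R0 (fun η m e => g e m η) hu hR0
    (fun m e => ⟨g e m, hg e m, fun _ => rfl⟩) (by
      intro H
      obtain ⟨c, hc⟩ := ((hfin H).image (fun m : Fin n → ℤ => ∑ i, |m i|)).bddAbove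
      refine ⟨c.toNat, fun η m e hm hne i => ?_⟩
      rw [E5_dotu] at hm
      have h1 : ∑ i, |m i| ≤ c := hc ⟨m, ⟨hm, e, fun h0 => hne (by simp [h0])⟩, rfl⟩
      have h2 : |m i| ≤ ∑ i, |m i| :=
        single_le_sum (f := fun i => |m i|) (fun _ _ => abs_nonneg _) (mem_univ i)
      exact (h2.trans h1).trans (Int.self_le_toNat c)) (by
      intro h0
      apply hGG
      refine measure_mono_null ?_ h0
      intro η hη
      obtain ⟨D, K, hD, hK, hrel⟩ := hsol η hη
      refine ⟨fun p => K p.1 p.2, D, hD, ?_, ?_⟩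
      · intro p hp
        rw [E5_dotu] at hp
        exact congrFun (hK p.1 hp) p.2
      · intro m1
        rw [← hrel m1, ← D_tsum (fun m i => g i (m1 - m) η * K m i)]
        exact hfs η K 0 R0 m1 (fun m hm => hK m (by simpa using hm)))
  filter_upwards [key] with η hη
  obtain ⟨t, K, hK1, hK2, hK3⟩ := hη
  have hK1' : ∀ m, R0 + 1 < |v m + t| → (fun i => K (m, i)) = 0 := by
    intro m hm
    funext i
    apply hK1
    rw [E5_dotu]
    exact hm
  have hts : ∀ m1 : Fin n → ℤ, ∑' p : (Fin n → ℤ) × I, g p.2 (m1 - p.1) η * K p =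
      ∑ᶠ m : Fin n → ℤ, ∑ i, g i (m1 - m) η * K (m, i) := fun m1 =>
    D_tsum (fun m i => g i (m1 - m) η * K (m, i))
      (hfs η (fun m i => K (m, i)) t (R0 + 1) m1 hK1')
  refine ⟨t, fun m i => K (m, i), ?_, hK1', ?_, ?_⟩
  · have h1 : Summable fun p : (Fin n → ℤ) × I => ‖K p‖ ^ 2 := by
      have h2 := (lp.memℓp K).summable (by norm_num)
      simpa using h2
    have h3 := h1.prod
    refine h3.congr fun m => ?_
    rw [tsum_fintype]
  · intro m1 hm1
    rw [← hts m1]
    apply hK2
    rw [E5_dotu]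
    exact hm1
  · obtain ⟨m1, hm1⟩ := hK3
    exact ⟨m1, by rw [← hts m1]; exact hm1⟩

end Pool.Agent.Helper97.FS
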