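import Pool.Agent.Helper97.FS.Stmts
import Pool.Agent.Helper51.FS.Stmts

set_option autoImplicit false

namespace Pool.Agent.Helper97.FS

open Finset MeasureTheory Filter Topology UnitAddTorus
open scoped ComplexConjugate
open Pool.Agent.Helper97.Sub

theorem E5_dotu {n : ℕ} (v : (Fin n → ℤ) →+ ℝ) (m : Fin n → ℤ) :
    Pool.Agent.Helper51.FS.dotu (fun i => v (Pi.single i 1)) m = v m := by
  unfold Pool.Agent.Helper51.FS.dotu
  have h1 : m = ∑ i, m i • Pi.single i (1 : ℤ) := by
    funext j
    rw [Finset.sum_apply]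
    simp [Pi.single_apply]
  conv_rhs => rw [h1, map_sum]
  refine sum_congr rfl fun i _ => ?_
  rw [map_zsmul, zsmul_eq_mul]

theorem st_E5 : ST_E5 := by
  intro n v hv F hF t R hR hne
  have hu : ∀ m : Fin n → ℤ,
      Pool.Agent.Helper51.FS.dotu (fun i => v (Pi.single i 1)) m = 0 → m = 0 := by
    intro m hm
    rw [E5_dotu] at hm
    exact hv (by rw [hm, map_zero])
  set f := hF.toLp with hf
  have hfF : f =ᵐ[tor n] F := hF.coeFn_toLp
  have hco : ∀ m : Fin n → ℤ, mFourierCoeff (f : UnitAddTorus (Fin n) → ℂ) m =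
      ∫ x, mFourier (-m) x * F x ∂(tor n) := by
    intro m
    rw [Pool.Agent.Helper51.FS.coeff_def]
    refine integral_congr_ae ?_
    filter_upwards [hfF] with x hx
    rw [hx, smul_eq_mul]
  have h1 := Pool.Agent.Helper51.FS.nz_ae (fun i => v (Pi.single i 1)) hu (R + |t|) f (by
    intro m hm
    rw [hco]
    apply hR
    rw [E5_dotu] at hm
    rw [map_neg]
    have h2 : |v m| ≤ |-v m + t| + |t| := by
      have := abs_sub_abs_le_abs_sub (v m) t
      have e : |-v m + t| = |v m - t| := by rw [← abs_neg]; congr 1; ring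
      rw [e]; linarith
    linarith) (by
    intro h0
    obtain ⟨m, hm⟩ := hne
    apply hm
    have h3 := hco (-m)
    rw [neg_neg] at h3
    rw [← h3, h0, Pool.Agent.Helper51.FS.coeff_def]
    have h4 : ((0 : Lp ℂ 2 (tor n)) : UnitAddTorus (Fin n) → ℂ) =ᵐ[tor n] 0 := Lp.coeFn_zero _ _ _
    rw [integral_congr_ae (g := fun _ => (0:ℂ)), integral_zero]
    filter_upwards [h4] with x hx
    have : ((0 : Lp ℂ 2 (tor n)) : UnitAddTorus (Fin n) → ℂ) x = 0 := hx
    exact (congrArg (fun z => mFourier (- -m) x • z) this).trans (smul_zero _))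
  filter_upwards [h1, hfF] with x hx1 hx2
  rwa [← hx2]

end Pool.Agent.Helper97.FS
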