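import Pool.Agent.Helper97.FS.Stmts

set_option autoImplicit false

namespace Pool.Agent.Helper97.FS

open Finset MeasureTheory Filter Topology UnitAddTorus
open scoped ComplexConjugate
open Pool.Agent.Helper97.Sub

variable {d : ℕ}

theorem GF_count_sum (l : List (Fin d)) : ∑ a, (l.count a) = l.length := by
  induction l with
  | nil => simp
  | cons c l ih =>
    have h : ∀ a, (c :: l).count a = (if a = c then 1 else 0) + l.count a := by
      intro a
      rw [List.count_cons]
      by_cases h : a = c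
      · subst h; simp [add_comm]
      · rw [if_neg h, if_neg (by simpa using Ne.symm h)]; simp
    rw [sum_congr rfl fun a _ => h a, sum_add_distrib, ih, sum_ite_eq' univ c]
    simp [add_comm]

theorem GF_ab_sum (l : List (Fin d)) : ∑ a, ab l a = (l.length : ℤ) := by
  unfold ab
  rw [← GF_count_sum l]
  push_cast
  rfl

theorem GF_ab_mono (V : List (Fin d)) {i i' : ℕ} (h : i ≤ i') :
    ab (V.take i) ≤ ab (V.take i') := by
  intro a
  unfold ab
  have : (V.take i).count a ≤ (V.take i').count a :=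
    (List.take_prefix_take_left h).sublist.count_le a
  show ((List.count a (List.take i V) : ℕ) : ℤ) ≤ ((List.count a (List.take i' V) : ℕ) : ℤ)
  exact_mod_cast this

theorem GF_cnt_symm (V : List (Fin d)) (c e : Fin d) (j : Fin d → ℤ) :
    cnt V c e j = cnt V e c (-j) := by
  unfold cnt
  apply card_bij (fun p _ => p.swap)
  · rintro ⟨i, i'⟩ hp
    simp only [mem_filter, mem_product, Prod.fst_swap, Prod.snd_swap] at hp ⊢
    refine ⟨⟨hp.1.2, hp.1.1⟩, hp.2.2.1, hp.2.1, ?_⟩
    rw [← hp.2.2.2]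
    abel
  · rintro p _ p' _ h
    exact Prod.swap_injective h
  · rintro ⟨i, i'⟩ hp
    simp only [mem_filter, mem_product] at hp
    refine ⟨(i', i), ?_, rfl⟩
    simp only [mem_filter, mem_product]
    refine ⟨⟨hp.1.2, hp.1.1⟩, hp.2.2.1, hp.2.1, ?_⟩
    rw [← neg_neg j, ← hp.2.2.2]
    abel

theorem GF_cnt_supp (V : List (Fin d)) (c e : Fin d) (j : Fin d → ℤ) (h : cnt V c e j ≠ 0) :
    0 ≤ j ∨ j ≤ 0 := by
  unfold cnt at h
  obtain ⟨⟨i, i'⟩, hp⟩ := card_pos.1 (Nat.pos_of_ne_zero h)
  simp only [mem_filter, mem_product] at hp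
  rcases le_total i i' with hi | hi
  · left
    rw [← hp.2.2.2, sub_nonneg]
    exact GF_ab_mono V hi
  · right
    rw [← hp.2.2.2, sub_nonpos]
    exact GF_ab_mono V hi

theorem GF_take_inj (V : List (Fin d)) {i i' : ℕ} (hi : i < V.length) (hi' : i' < V.length)
    (h : ab (V.take i') - ab (V.take i) = 0) : i = i' := by
  have h1 : ∑ a, ab (V.take i') a = ∑ a, ab (V.take i) a := by
    rw [sub_eq_zero.1 h]
  rw [GF_ab_sum, GF_ab_sum, List.length_take, List.length_take] at h1
  omega

theorem GF_cnt_trace (V : List (Fin d)) : ∑ a, cnt V a a 0 = V.length := by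
  have h1 : ∀ a, cnt V a a 0 = ∑ i ∈ range V.length, if V[i]? = some a then 1 else 0 := by
    intro a
    rw [← card_filter]
    unfold cnt
    apply card_bij (fun p _ => p.1)
    · rintro ⟨i, i'⟩ hp
      simp only [mem_filter, mem_product] at hp ⊢
      exact ⟨hp.1.1, hp.2.1⟩
    · rintro ⟨i, i'⟩ hp ⟨j, j'⟩ hp' h
      simp only [mem_filter, mem_product, mem_range] at hp hp' h
      have h2 := GF_take_inj V hp.1.1 hp.1.2 hp.2.2.2
      have h3 := GF_take_inj V hp'.1.1 hp'.1.2 hp'.2.2.2
      subst h2; subst h3; subst h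
      rfl
    · intro i hi
      simp only [mem_filter] at hi
      refine ⟨(i, i), ?_, rfl⟩
      simp only [mem_filter, mem_product, sub_self]
      exact ⟨⟨hi.1, hi.1⟩, hi.2, hi.2, trivial⟩
  rw [sum_congr rfl fun a _ => h1 a, sum_comm]
  have h2 : ∀ i ∈ range V.length, ∑ a, (if V[i]? = some a then 1 else 0) = 1 := by
    intro i hi
    rw [mem_range] at hi
    rw [List.getElem?_eq_getElem hi]
    simp
  rw [sum_congr rfl h2]
  simp

theorem GF_dpos {σ : Fin d → List (Fin d)} {M : Matrix (Fin d) (Fin d) ℤ} {θ : ℝ}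
    {L f : Fin d → ℝ} (h : PFD σ M θ L f) : Nonempty (Fin d) := by
  by_contra hcon
  rw [not_nonempty_iff] at hcon
  have := h.fsum
  simp at this

theorem GF_len_pos {σ : Fin d → List (Fin d)} (hne : ∀ a, σ a ≠ []) (N : ℕ) (a : Fin d) :
    0 < (T σ N a).length := by
  have h1 := len_mono hne 0 N (Nat.zero_le _) a
  rw [T_zero] at h1
  exact h1

theorem st_GF : ST_GF := by
  intro d σ M θ L f gam h
  obtain ⟨a₀⟩ := GF_dpos h.toPFD
  refine ⟨h.Lpos, ?_, ?_, ?_, ?_⟩
  · intro a b j
    exact ge_of_tendsto' (h.gl a₀ a b j) fun N => by positivity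
  · intro a b j
    refine tendsto_nhds_unique (h.gl a₀ a b j) ?_
    simp only [GF_cnt_symm _ a b j]
    exact h.gl a₀ b a (-j)
  · intro a b j hj
    by_contra hcon
    apply hj
    refine tendsto_nhds_unique (h.gl a₀ a b j) ?_
    have : ∀ N, cnt (T σ N a₀) a b j = 0 := by
      intro N
      by_contra h0
      exact hcon (GF_cnt_supp _ _ _ _ h0)
    simp [this]
  · have h1 : Tendsto (fun N : ℕ => ∑ a, (cnt (T σ N a₀) a a 0 : ℝ) / ((T σ N a₀).length : ℝ)) atTop
        (𝓝 (∑ a, gam a a 0)) := tendsto_finsetSum _ fun a _ => h.gl a₀ a a 0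
    refine tendsto_nhds_unique h1 ?_
    have h2 : ∀ N, ∑ a, (cnt (T σ N a₀) a a 0 : ℝ) / ((T σ N a₀).length : ℝ) = 1 := by
      intro N
      rw [← sum_div]
      have h3 := GF_cnt_trace (T σ N a₀)
      have h4 : ∑ a, (cnt (T σ N a₀) a a 0 : ℝ) = ((T σ N a₀).length : ℝ) := by exact_mod_cast h3
      rw [h4, div_self]
      have := GF_len_pos h.ne N a₀
      exact_mod_cast this.ne'
    simp only [h2]
    exact tendsto_const_nhds

end Pool.Agent.Helper97.FS
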