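import Pool.Agent.Helper97.FS.Frozen
import Pool.Agent.Helper97.FS.D
import Pool.Agent.Helper97.FS.E5
import Pool.Agent.Helper97.FS.GF
import Pool.Agent.Helper51.FS.DIM
import Pool.Agent.Helper23.FS.PF
import Pool.Agent.Helper44.FS.UE1
import Pool.Agent.Helper76.FS.UE2
import Pool.Agent.Helper1.FS.SET
import Pool.Agent.Helper57.FS.JAC
import Pool.Agent.Helper50.FS.KER
import Pool.Agent.Helper78.FS.BD
import Pool.Agent.Helper7.FS.IDA
import Pool.Agent.Helper26.FS.IDB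
import Pool.Agent.Helper27.FS.IDC
import Pool.Agent.Helper41.FS.IDN
import Pool.Agent.Helper30.FS.CONV
import Pool.Agent.Helper34.FS.SPL
import Pool.Agent.Helper84.FS.FIB
import Pool.Agent.Helper38.FS.PDE
import Pool.Agent.Helper77.FS.LINK
import Pool.Agent.Helper99.FS.E1
import Pool.Agent.Helper38.FS.E2
import Pool.Agent.Helper91.FS.E3
import Pool.Agent.Helper57.FS.E4
import Pool.Agent.Helper41.FS.E6
import Pool.Agent.Helper79.FS.E7
import Pool.Agent.Helper39.FS.E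
import Pool.Agent.Helper2.FS.WW
import Pool.Agent.Helper35.FS.WW1
import Pool.Agent.Helper99.FS.WW2
import Pool.Agent.Helper2.FS.WREP
import Pool.Agent.Helper56.FS.WUP
import Pool.Agent.Helper18.FS.WLO
import Pool.Agent.Helper27.FS.WEST
import Pool.Agent.Helper33.FS.WFLAT
import Pool.Agent.Helper55.FS.Z1
import Pool.Agent.Helper53.FS.Z2
import Pool.Agent.Helper33.FS.Z3
import Pool.Agent.Helper18.FS.Z4

set_option autoImplicit false

namespace Pool.Agent.Helper97.FS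

theorem all_IDN : ST_IDN := st_IDN st_IDA st_IDB st_IDC

theorem all_E : ST_E := st_E st_E1 st_E2 st_E3 st_E4 st_E5 (st_E7 (st_E6 st_E1))

theorem all_WREP : ST_WREP := st_WREP st_WW

theorem all_WFLAT : ST_WFLAT :=
  st_WFLAT (st_WEST (st_WUP all_WREP (st_WW1 st_WW))) (st_WLO all_WREP (st_WW2 st_WW))

theorem all_Z3 : ST_Z3 := st_Z3 st_GF st_LINK all_WREP st_Z1 st_Z2

theorem all_MAIN : ST_MAIN :=
  st_MAIN st_PF st_UE1 st_UE2 st_GF (st_KER st_SET st_JAC) st_BD (st_CONV st_GF all_IDN) st_SPL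
    st_FIB (st_D Pool.Agent.Helper51.FS.st_DIM) (st_PDE st_GF) all_E st_LINK all_WFLAT all_Z3 st_Z4

open MeasureTheory Pool.Agent.Helper97.Sub in
/-- Every square integrable function has a spectral measure, and every spectral measure of it is
singular. -/
theorem all_singular {d : ℕ} {σ : Fin d → List (Fin d)} {M : Matrix (Fin d) (Fin d) ℤ}
    {θ : ℝ} {X : Set (ℤ → Fin d)} (h : Sys σ M θ X)
    (hsq : ∀ z : ℂ, (M.map (Int.cast : ℤ → ℂ)).charpoly.IsRoot z → ‖z‖ ^ 2 ≠ θ)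
    (μ : Measure (ℤ → Fin d)) [IsProbabilityMeasure μ]
    (hX : μ Xᶜ = 0) (hμ : MeasurePreserving (sh (d := d)) μ μ)
    (f : (ℤ → Fin d) → ℂ) (hf : MemLp f 2 μ) :
    (∃ ν, IsSpec μ sh f ν) ∧ ∀ ν, IsSpec μ sh f ν → ν.MutuallySingular volume := by
  refine ⟨A1 _ μ _ hμ f hf, fun ν hν => ?_⟩
  refine C1 A1 _ μ _ hμ f hf ?_ ν hν
  intro ε hε
  obtain ⟨w, G, g, hg, hfg, hiff⟩ := C2 d μ inferInstance hμ f hf ε hε
  refine ⟨g, hg, hfg, fun ν' hν' => ?_⟩
  by_contra hns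
  obtain ⟨z, hz1, hz2⟩ := all_MAIN d σ M θ X h (h.one_lt hsq) μ inferInstance hX hμ G w ν'
    ((hiff ν').1 hν') hns
  exact hsq z hz1 hz2

end Pool.Agent.Helper97.FS
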