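import Pool.Agent.Helper97.Sub.Core

set_option autoImplicit false

namespace Pool.Agent.Helper97.FS

open Finset MeasureTheory Filter Topology
open scoped ComplexConjugate
open Pool.Agent.Helper97.Sub

variable {d : ℕ}

/-! ### words -/

/-- Abelianization of a word. -/
def ab (V : List (Fin d)) : Fin d → ℤ := fun a => ((V.count a : ℕ) : ℤ)

/-- Pairs of positions `(i, i')` of `V` with letters `c`, `e` and displacement `j`. -/
def cnt (V : List (Fin d)) (c e : Fin d) (j : Fin d → ℤ) : ℕ :=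
  #{p ∈ range V.length ×ˢ range V.length | V[p.1]? = some c ∧ V[p.2]? = some e ∧
      ab (V.take p.2) - ab (V.take p.1) = j}

open Classical in
/-- Number of occurrences of `W` in `V`. -/
noncomputable def occ (W V : List (Fin d)) : ℕ := #{i ∈ range V.length | W <+: V.drop i}

/-- Length functional. -/
noncomputable def len (L : Fin d → ℝ) (j : Fin d → ℤ) : ℝ := ∑ a, L a * (j a : ℝ)

/-- Integer length of the level `k` image of `j`. -/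
def lk (σ : Fin d → List (Fin d)) (k : ℕ) (j : Fin d → ℤ) : ℤ :=
  ∑ a, j a * (((T σ k a).length : ℕ) : ℤ)

/-- Perron-Frobenius data of a substitution. -/
structure PFD (σ : Fin d → List (Fin d)) (M : Matrix (Fin d) (Fin d) ℤ) (θ : ℝ)
    (L f : Fin d → ℝ) : Prop where
  ne : ∀ a, σ a ≠ []
  cntM : ∀ i j, M i j = (((σ j).count i : ℕ) : ℤ)
  prim : ∃ k : ℕ, ∀ i j, 0 < (M ^ k) i j
  one_lt : 1 < θ
  Lpos : ∀ a, 0 < L a
  fpos : ∀ a, 0 < f a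
  left : ∀ a, ∑ b, L b * (M b a : ℝ) = θ * L a
  right : ∀ b, ∑ a, (M b a : ℝ) * f a = θ * f b
  fsum : ∑ a, f a = 1
  fL : ∑ a, f a * L a = 1
  lim : ∀ a b, Tendsto (fun k : ℕ => (((M ^ k) b a : ℤ) : ℝ) / θ ^ k) atTop (𝓝 (f b * L a))

/-- Perron-Frobenius data and the pair frequencies. -/
structure Dyn (σ : Fin d → List (Fin d)) (M : Matrix (Fin d) (Fin d) ℤ) (θ : ℝ)
    (L f : Fin d → ℝ) (gam : Fin d → Fin d → (Fin d → ℤ) → ℝ) : Prop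
    extends PFD σ M θ L f where
  gl : ∀ a c e j, Tendsto (fun N : ℕ => (cnt (T σ N a) c e j : ℝ) / ((T σ N a).length : ℝ))
    atTop (𝓝 (gam c e j))

/-- Basic properties of the pair frequencies. -/
structure GamF (L : Fin d → ℝ) (gam : Fin d → Fin d → (Fin d → ℤ) → ℝ) : Prop where
  Lpos : ∀ a, 0 < L a
  nonneg : ∀ a b j, 0 ≤ gam a b j
  symm : ∀ a b j, gam a b j = gam b a (-j)
  supp : ∀ a b j, gam a b j ≠ 0 → 0 ≤ j ∨ j ≤ 0
  trace : ∑ a, gam a a 0 = 1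

/-- Output of the limit procedure. -/
structure CV (L : Fin d → ℝ) (gam : Fin d → Fin d → (Fin d → ℤ) → ℝ)
    (U : AddSubgroup (Fin d → ℤ)) (K : (Fin d → ℤ) → Fin d → Fin d → ℂ)
    (Dh : (Fin d → ℤ) → ℂ) (R0 : ℝ) : Prop where
  nn : 0 ≤ R0
  Ulen : ∀ u ∈ U, len L u = 0
  sat : ∀ (k : ℤ) (u : Fin d → ℤ), k ≠ 0 → k • u ∈ U → u ∈ U
  inv : ∀ m, ∀ u ∈ U, K (m + u) = K m
  supp : ∀ m, R0 < |len L m| → K m = 0
  bess : ∃ C : ℝ, ∀ S : Finset (Fin d → ℤ), (∀ m ∈ S, ∀ m' ∈ S, m - m' ∈ U → m = m') →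
    ∀ a b, ∑ m ∈ S, ‖K m a b‖ ^ 2 ≤ C
  rel : ∀ j1, ∑ᶠ j : Fin d → ℤ, ∑ c, ∑ e, (gam c e j : ℂ) * K (j1 - j) c e = Dh j1
  Dsupp : ∀ j1, len L j1 ≠ 0 → Dh j1 = 0
  D0 : Dh 0 ≠ 0

/-- Splitting of `ℤ^d / U`. -/
structure SP {s n : ℕ} (L : Fin d → ℝ) (U : AddSubgroup (Fin d → ℤ))
    (p : (Fin d → ℤ) →+ (Fin s → ℤ)) (q : (Fin d → ℤ) →+ (Fin n → ℤ))
    (v : (Fin n → ℤ) →+ ℝ) : Prop where
  inj : Function.Injective v
  vq : ∀ j, v (q j) = len L j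
  ker : ∀ j, j ∈ U ↔ p j = 0 ∧ q j = 0
  surj : ∀ x y, ∃ j, p j = x ∧ q j = y

/-! ### twisted sums on the circle -/

/-- The phase at `ω`. -/
noncomputable def zc (ω : AddCircle (1 : ℝ)) : ℂ := conj (fourier 1 ω)

/-- Tile sum of level `k`. -/
noncomputable def Ek (σ : Fin d → List (Fin d)) (G : List (Fin d) → ℂ) (w k : ℕ) (c : Fin d)
    (ω : AddCircle (1 : ℝ)) : ℂ := TS G w (zc ω) (T σ k c)

/-- Trigonometric polynomial on the circle. -/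
noncomputable def tp (N : ℕ) (c : ℤ → ℂ) (ω : AddCircle (1 : ℝ)) : ℂ :=
  ∑ j ∈ Icc (-(N : ℤ)) N, c j * fourier j ω

/-- Correlation sum of the window function in a finite word. -/
noncomputable def cor (G : List (Fin d) → ℂ) (w : ℕ) (V : List (Fin d)) (n : ℕ) : ℂ :=
  ∑ i ∈ range V.length, if i + n + w ≤ V.length then
    G ((V.drop (i + n)).take w) * conj (G ((V.drop i).take w)) else 0

/-- The measure `ν` is the correlation measure of the window function along the tiles. -/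
def Cor (σ : Fin d → List (Fin d)) (G : List (Fin d) → ℂ) (w : ℕ)
    (ν : Measure (AddCircle (1 : ℝ))) : Prop :=
  IsFiniteMeasure ν ∧ ∀ (a : Fin d) (n : ℕ),
    Tendsto (fun N : ℕ => cor G w (T σ N a) n / (((T σ N a).length : ℕ) : ℂ)) atTop
      (𝓝 (∫ t, fourier (n : ℤ) t ∂ν))

/-- Output of the circle analysis. -/
structure KO (ν : Measure (AddCircle (1 : ℝ))) (O : Set (AddCircle (1 : ℝ))) (C : ℝ)
    (ρ : AddCircle (1 : ℝ) → ℝ) (W : ℕ → AddCircle (1 : ℝ) → ℝ) : Prop where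
  max : ∀ N : ℕ, ∀ s ∈ O, KN ν N s ≤ C * N
  int : Integrable ρ AddCircle.haarAddCircle
  pos : 0 < ∫ ω, ρ ω ∂AddCircle.haarAddCircle
  trig : ∀ n, ∃ c : ℤ → ℂ, ∀ ω, (W n ω : ℂ) = tp (2 * n) c ω
  bd : ∀ n ω, 0 ≤ W n ω ∧ W n ω ≤ 1
  ker : ∀ n : ℕ, 1 ≤ n → ∀ (ω : AddCircle (1 : ℝ)) (e A Y : ℝ), 0 ≤ A →
    (∀ s ∈ O, e ≤ A * (1 + Y ^ 2 * ‖(fourier 1 (ω - s) : ℂ) - 1‖ ^ 2)) →
      W n ω * e ≤ A * (1 + 8 * Y ^ 2 / (n : ℝ) ^ 2)
  conv : ∀ ε : ℝ, 0 < ε → ∃ n₀ : ℕ, ∀ n, n₀ ≤ n → ∀ N : ℤ,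
    ‖(∫ ω, (W n ω : ℂ) * fourier N ω ∂ν) -
      ∫ ω, (ρ ω : ℂ) * fourier N ω ∂AddCircle.haarAddCircle‖ ≤ ε

/-- Pointwise bound of the tile sums near the frequencies of `O`. -/
def BDO (σ : Fin d → List (Fin d)) (θ : ℝ) (G : List (Fin d) → ℂ) (w : ℕ)
    (O : Set (AddCircle (1 : ℝ))) : Prop :=
  ∃ A : ℝ, 0 ≤ A ∧ ∀ s ∈ O, ∀ (k : ℕ) (c : Fin d) (ω : AddCircle (1 : ℝ)),
    ‖Ek σ G w k c ω‖ ^ 2 ≤ A * θ ^ k * (1 + (θ ^ k) ^ 2 * ‖(fourier 1 (ω - s) : ℂ) - 1‖ ^ 2)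

/-! ### abelian characters -/

/-- The triangle window squared. -/
noncomputable def ww (s : ℝ) : ℝ := (max (1 - |s|) 0) ^ 2

/-- The character of `ℤ^d` attached to a vector of phases. -/
noncomputable def chi (y : Fin d → ℂ) (j : Fin d → ℤ) : ℂ := ∏ a, y a ^ (j a)

/-- Smoothed energy at the phases `y`. -/
noncomputable def VV (gam : Fin d → Fin d → (Fin d → ℤ) → ℝ) (L : Fin d → ℝ) (y : Fin d → ℂ)
    (t : ℝ) : ℝ :=
  ∑ᶠ j : Fin d → ℤ, (∑ c, gam c c j) * (chi y j).re * ww (len L j / t)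

/-- Prefix sum of the letters `c`. -/
noncomputable def Fc (y : Fin d → ℂ) (c : Fin d) (V : List (Fin d)) (u : ℕ) : ℂ :=
  WS y (Pi.single c 1) (V.take u)

/-- Phase of the position `i` if its letter is `c`. -/
noncomputable def zz (y : Fin d → ℂ) (V : List (Fin d)) (c : Fin d) (i : ℕ) : ℂ :=
  if V[i]? = some c then chi y (ab (V.take i)) else 0

/-- Real position of the letter `i`. -/
noncomputable def pos (L : Fin d → ℝ) (V : List (Fin d)) (i : ℕ) : ℝ := len L (ab (V.take i))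

/-- Quadratic form of a finite word. -/
noncomputable def qf (L : Fin d → ℝ) (y : Fin d → ℂ) (t : ℝ) (V : List (Fin d)) : ℝ :=
  ∑ c, ∑ i ∈ range V.length, ∑ i' ∈ range V.length,
    (zz y V c i * conj (zz y V c i')).re * ww ((pos L V i - pos L V i') / t)

/-- Tile matrix of level `k`. -/
noncomputable def EW (σ : Fin d → List (Fin d)) (y : Fin d → ℂ) (k : ℕ) (b c : Fin d) : ℂ :=
  WS y (Pi.single c 1) (T σ k b)

/-! ### tori -/

/-- Haar probability measure of the torus. -/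
noncomputable abbrev tor (s : ℕ) : Measure (UnitAddTorus (Fin s)) :=
  Measure.pi (fun _ => AddCircle.haarAddCircle)

open UnitAddTorus

/-- Coefficient functions of the fibre system. -/
noncomputable def Bc {s n : ℕ} (gam : Fin d → Fin d → (Fin d → ℤ) → ℝ)
    (p : (Fin d → ℤ) →+ (Fin s → ℤ)) (q : (Fin d → ℤ) →+ (Fin n → ℤ)) (a b : Fin d)
    (m : Fin n → ℤ) : C(UnitAddTorus (Fin s), ℂ) :=
  ∑ᶠ j : Fin d → ℤ, if q j = m then (gam a b j : ℂ) • mFourier (-(p j)) else 0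

/-- The phases attached to a point of the torus. -/
noncomputable def yv {s n : ℕ} (p : (Fin d → ℤ) →+ (Fin s → ℤ)) (q : (Fin d → ℤ) →+ (Fin n → ℤ))
    (η : UnitAddTorus (Fin s)) (x : UnitAddTorus (Fin n)) (a : Fin d) : ℂ :=
  mFourier (p (Pi.single a 1)) η * mFourier (q (Pi.single a 1)) x

/-- Positive definite matrix function on `ℤ^n` with a gap. -/
structure PDM {n : ℕ} (v : (Fin n → ℤ) →+ ℝ) (B : (Fin n → ℤ) → Fin d → Fin d → ℂ) : Prop where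
  herm : ∀ m a b, B (-m) b a = conj (B m a b)
  pos : ∀ (S : Finset (Fin n → ℤ)) (c : (Fin n → ℤ) → Fin d → ℂ),
    0 ≤ (∑ m ∈ S, ∑ m' ∈ S, ∑ a, ∑ b, c m a * conj (c m' b) * B (m' - m) a b).re
  gap : ∃ δ : ℝ, 0 < δ ∧ ∀ m, m ≠ 0 → |v m| < δ → B m = 0
  fin : ∀ R : ℝ, {m | |v m| ≤ R ∧ B m ≠ 0}.Finite
  trace : ∑ a, B 0 a a = 1

/-- Smoothed density of a sequence of Fourier coefficients. -/
noncomputable def VE {n : ℕ} (v : (Fin n → ℤ) →+ ℝ) (b : (Fin n → ℤ) → ℂ) (t : ℝ)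
    (x : UnitAddTorus (Fin n)) : ℝ :=
  (∑ᶠ m : Fin n → ℤ, b m * mFourier (-m) x * ((ww (v m / t) : ℝ) : ℂ)).re

/-- Convergence in measure to an almost everywhere positive function. -/
def PosLim {n : ℕ} (V : ℝ → UnitAddTorus (Fin n) → ℝ) : Prop :=
  ∃ ρ : UnitAddTorus (Fin n) → ℝ, Measurable ρ ∧ (∀ᵐ x ∂(tor n), 0 < ρ x) ∧
    ∀ δ : ℝ, 0 < δ → Tendsto (fun t : ℝ => (tor n) {x | δ ≤ |V t x - ρ x|}) atTop (𝓝 0)

end Pool.Agent.Helper97.FS
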