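import Pool.Agent.Helper97.FS.MAIN

set_option autoImplicit false

namespace Pool.Agent.Helper97.FS

open Pool.Agent.Helper97.Sub

theorem frozen_of (hM : ST_MAIN) :
    ∀ (d : ℕ) (σ : Fin d → List (Fin d)) (M : Matrix (Fin d) (Fin d) ℤ) (θ₁ : ℝ)
      (X : Set (ℤ → Fin d)),
      (∀ a, σ a ≠ []) →
      (∃ a b, (σ a).length ≠ (σ b).length) →
      (∀ i j, M i j = (((σ j).count i : ℕ) : ℤ)) →
      (∃ k : ℕ, ∀ i j, 0 < (M ^ k) i j) →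
      (M.map (Int.cast : ℤ → ℂ)).charpoly.IsRoot (θ₁ : ℂ) →
      (∀ z : ℂ, (M.map (Int.cast : ℤ → ℂ)).charpoly.IsRoot z → ‖z‖ ≤ θ₁) →
      (∀ x : ℤ → Fin d, x ∈ X ↔
        ∀ (i : ℤ) (k : ℕ), ∃ (n : ℕ) (a : Fin d),
          (List.ofFn (fun j : Fin k => x (i + ((j : ℕ) : ℤ)))) <:+:
            ((fun w : List (Fin d) => w.flatMap σ)^[n] [a])) →
      (∀ x ∈ X, ∀ p : ℕ, 0 < p → ∃ i : ℤ, x (i + (p : ℤ)) ≠ x i) →
      (∀ z : ℂ, (M.map (Int.cast : ℤ → ℂ)).charpoly.IsRoot z → ‖z‖ ^ 2 ≠ θ₁) →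
      ∀ (μ : MeasureTheory.Measure (ℤ → Fin d)), MeasureTheory.IsProbabilityMeasure μ →
        μ Xᶜ = 0 →
        MeasureTheory.MeasurePreserving (fun x : ℤ → Fin d => fun i => x (i + 1)) μ μ →
        ∀ f : (ℤ → Fin d) → ℂ, MeasureTheory.MemLp f 2 μ →
          ∃ ν : MeasureTheory.Measure (AddCircle (1 : ℝ)), MeasureTheory.IsFiniteMeasure ν ∧
            (∀ n : ℕ, ∫ t, fourier (n : ℤ) t ∂ν =
              ∫ x, f ((fun y : ℤ → Fin d => fun i => y (i + 1))^[n] x) *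
                (starRingEnd ℂ) (f x) ∂μ) ∧
            MeasureTheory.Measure.MutuallySingular ν MeasureTheory.volume := by
  intro d σ M θ X h1 _ h3 h4 h5 h6 h7 _ h9 μ hμ hX hsh f hf
  have hS : Sys σ M θ X := ⟨h1, h3, h4, h5, h6, h7⟩
  obtain ⟨ν, ⟨hν1, hν2⟩, hν3⟩ := M_final hM hS h9 μ hX hsh f hf
  exact ⟨ν, hν1, hν2, hν3⟩

end Pool.Agent.Helper97.FS
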