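import Pool.Agent.Helper97.FS.Stmts
import Pool.Agent.Helper97.Sub.An4

set_option autoImplicit false

namespace Pool.Agent.Helper97.FS

open Finset MeasureTheory Filter Topology UnitAddTorus
open scoped ComplexConjugate
open Pool.Agent.Helper97.Sub

theorem M_dpos {d : ℕ} {M : Matrix (Fin d) (Fin d) ℤ} {θ : ℝ}
    (h : (M.map (Int.cast : ℤ → ℂ)).charpoly.IsRoot (θ : ℂ)) : 0 < d := by
  rcases Nat.eq_zero_or_pos d with h0 | h0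
  · exfalso
    subst h0
    rw [Matrix.charpoly, Matrix.det_isEmpty] at h
    simp at h
  · exact h0

theorem M_PFD (hPF : ST_PF) {d : ℕ} {σ : Fin d → List (Fin d)} {M : Matrix (Fin d) (Fin d) ℤ}
    {θ : ℝ} {X : Set (ℤ → Fin d)} (h : Sys σ M θ X) (hθ : 1 < θ) :
    ∃ L f : Fin d → ℝ, PFD σ M θ L f := by
  obtain ⟨-, c, hc, C, -, hgr⟩ := h.growth H
  obtain ⟨L, f, h1, h2, h3, h4, h5, h6, h7⟩ := hPF d M θ (M_dpos h.root)
    (fun i j => by rw [h.cnt]; positivity) h.prim hθ ⟨c, hc, C, fun k a => by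
      rw [← length_T h.cnt k a]
      exact_mod_cast hgr k a⟩
  exact ⟨L, f, h.ne, h.cnt, h.prim, hθ, h1, h2, h3, h4, h5, h6, h7⟩

theorem M_len {d : ℕ} {σ : Fin d → List (Fin d)} {M : Matrix (Fin d) (Fin d) ℤ}
    {θ : ℝ} {X : Set (ℤ → Fin d)} (h : Sys σ M θ X) (hθ : 1 < θ) (a : Fin d) :
    Tendsto (fun N : ℕ => ((T σ N a).length : ℝ)) atTop atTop := by
  obtain ⟨-, c, hc, C, -, hgr⟩ := h.growth H
  refine tendsto_atTop_mono (fun N => (hgr N a).1) ?_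
  exact (tendsto_pow_atTop_atTop_of_one_lt hθ).const_mul_atTop hc

theorem M_pos {n : ℕ} {V V' : ℝ → UnitAddTorus (Fin n) → ℝ}
    (h : ∀ t, 0 < t → ∀ x, V t x = V' t x) (hV : PosLim V') : PosLim V := by
  obtain ⟨ρ, h1, h2, h3⟩ := hV
  refine ⟨ρ, h1, h2, fun δ hδ => ?_⟩
  refine (h3 δ hδ).congr' ?_
  filter_upwards [eventually_gt_atTop 0] with t ht
  congr 1
  ext x
  simp only [Set.mem_setOf_eq]
  rw [h t ht x]

theorem st_MAIN (hPF : ST_PF) (hUE1 : ST_UE1) (hUE2 : ST_UE2) (hGF : ST_GF) (hKER : ST_KER)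
    (hBD : ST_BD) (hCONV : ST_CONV) (hSPL : ST_SPL) (hFIB : ST_FIB) (hD : ST_D)
    (hPDE : ST_PDE) (hE : ST_E) (hLINK : ST_LINK) (hWF : ST_WFLAT) (hZ3 : ST_Z3) (hZ4 : ST_Z4) :
    ST_MAIN := by
  intro d σ M θ X hS hθ μ hμ hX hsh G w ν hν hns
  obtain ⟨L, f, hpf⟩ := M_PFD hPF hS hθ
  have hfr := hUE1 d σ M θ X L f hS hpf μ hμ hX hsh
  obtain ⟨⟨gam, hgam⟩, hcor⟩ := hUE2 d σ (M_len hS hθ) μ hμ hsh hfr
  have hdyn : Dyn σ M θ L f gam := ⟨hpf, hgam⟩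
  have hC : Cor σ G w ν := hcor G w ν hν
  have hgf := hGF d σ M θ L f gam hdyn
  obtain ⟨O, C, ρ, W, hKO⟩ := hKER ν hν.1 hns
  have hBDO := hBD d σ M θ X hS hθ μ hμ hX hsh G w ν hν O C hKO.max
  obtain ⟨U, K, Dh, R0, hCV⟩ := hCONV d σ M θ L f gam hdyn G w ν hC O C ρ W hKO hBDO
  obtain ⟨s, n, p, q, v, hSP⟩ := hSPL d L U hCV.Ulen hCV.sat
  obtain ⟨GG, hGG, hsol⟩ := hFIB d L gam hgf U K Dh R0 hCV s n p q v hSP
  obtain ⟨hl1, hl2, hl3⟩ := hLINK d L gam hgf s n p q v hSP.vq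
  have hae := hD s n (Fin d × Fin d) v (fun i m => Bc gam p q i.1 i.2 m) hSP.inj
    (fun i m => hl1 i.1 i.2 m) hl2 R0 hCV.nn GG hGG hsol
  have hPL : ∀ᵐ η ∂(tor s), PosLim (fun t x => VV gam L (yv p q η x) t) := by
    filter_upwards [hae] with η hη
    obtain ⟨t, K', h1, h2, h3, h4⟩ := hη
    have h5 := hE n d v (fun m a b => Bc gam p q a b m η) hSP.inj
      (hPDE d σ M θ L f gam hdyn s n p q v hSP.vq η) R0 t K' h1 h2 h3 h4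
    exact M_pos (fun t ht x => (hl3 t ht).1 η x) h5
  obtain ⟨C0, K1, CF, cF, hwf⟩ := hWF d σ M θ L f gam hdyn
  have hz3 := hZ3 d σ M θ L f gam hdyn C0 K1 CF cF hwf s n p q v hSP.vq hPL
  exact hZ4 d M θ CF cF hθ hwf.2.2.2.1 hz3

/-- The reduction of the frozen statement to `ST_MAIN`. -/
theorem M_final (hM : ST_MAIN) {d : ℕ} {σ : Fin d → List (Fin d)} {M : Matrix (Fin d) (Fin d) ℤ}
    {θ : ℝ} {X : Set (ℤ → Fin d)} (h : Sys σ M θ X)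
    (hsq : ∀ z : ℂ, (M.map (Int.cast : ℤ → ℂ)).charpoly.IsRoot z → ‖z‖ ^ 2 ≠ θ)
    (μ : Measure (ℤ → Fin d)) [IsProbabilityMeasure μ]
    (hX : μ Xᶜ = 0) (hμ : MeasurePreserving (sh (d := d)) μ μ)
    (f : (ℤ → Fin d) → ℂ) (hf : MemLp f 2 μ) :
    ∃ ν, IsSpec μ sh f ν ∧ ν.MutuallySingular volume := by
  obtain ⟨ν, hν⟩ := A1 _ μ _ hμ f hf
  refine ⟨ν, hν, ?_⟩
  refine C1 A1 _ μ _ hμ f hf ?_ ν hν
  intro ε hε
  obtain ⟨w, G, g, hg, hfg, hiff⟩ := C2 d μ inferInstance hμ f hf ε hε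
  refine ⟨g, hg, hfg, fun ν' hν' => ?_⟩
  by_contra hns
  obtain ⟨z, hz1, hz2⟩ := hM d σ M θ X h (h.one_lt hsq) μ inferInstance hX hμ G w ν'
    ((hiff ν').1 hν') hns
  exact hsq z hz1 hz2

end Pool.Agent.Helper97.FS
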