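import Pool.Agent.Helper97.FS.Defs

set_option autoImplicit false

namespace Pool.Agent.Helper97.FS

open Finset MeasureTheory Filter Topology UnitAddTorus
open scoped ComplexConjugate
open Pool.Agent.Helper97.Sub

/-! ### combinatorics and frequencies -/

def ST_PF : Prop :=
  ∀ (d : ℕ) (M : Matrix (Fin d) (Fin d) ℤ) (θ : ℝ), 0 < d →
    (∀ i j, 0 ≤ M i j) → (∃ k : ℕ, ∀ i j, 0 < (M ^ k) i j) → 1 < θ →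
    (∃ c : ℝ, 0 < c ∧ ∃ C : ℝ, ∀ (k : ℕ) (a : Fin d),
      c * θ ^ k ≤ ((ell M k a : ℤ) : ℝ) ∧ ((ell M k a : ℤ) : ℝ) ≤ C * θ ^ k) →
    ∃ L f : Fin d → ℝ, (∀ a, 0 < L a) ∧ (∀ a, 0 < f a) ∧
      (∀ a, ∑ b, L b * (M b a : ℝ) = θ * L a) ∧ (∀ b, ∑ a, (M b a : ℝ) * f a = θ * f b) ∧
      ∑ a, f a = 1 ∧ ∑ a, f a * L a = 1 ∧
      ∀ a b, Tendsto (fun k : ℕ => (((M ^ k) b a : ℤ) : ℝ) / θ ^ k) atTop (𝓝 (f b * L a))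

def ST_UE1 : Prop :=
  ∀ (d : ℕ) (σ : Fin d → List (Fin d)) (M : Matrix (Fin d) (Fin d) ℤ) (θ : ℝ)
    (X : Set (ℤ → Fin d)) (L f : Fin d → ℝ), Sys σ M θ X → PFD σ M θ L f →
    ∀ μ : Measure (ℤ → Fin d), IsProbabilityMeasure μ → μ Xᶜ = 0 →
      MeasurePreserving (sh (d := d)) μ μ → ∀ (W : List (Fin d)) (a : Fin d),
        Tendsto (fun N : ℕ => (occ W (T σ N a) : ℝ) / ((T σ N a).length : ℝ)) atTop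
          (𝓝 (μ.real {x | win x 0 W.length = W}))

def ST_UE2 : Prop :=
  ∀ (d : ℕ) (σ : Fin d → List (Fin d)),
    (∀ a, Tendsto (fun N : ℕ => ((T σ N a).length : ℝ)) atTop atTop) →
    ∀ μ : Measure (ℤ → Fin d), IsProbabilityMeasure μ → MeasurePreserving (sh (d := d)) μ μ →
      (∀ (W : List (Fin d)) (a : Fin d),
        Tendsto (fun N : ℕ => (occ W (T σ N a) : ℝ) / ((T σ N a).length : ℝ)) atTop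
          (𝓝 (μ.real {x | win x 0 W.length = W}))) →
      (∃ gam : Fin d → Fin d → (Fin d → ℤ) → ℝ, ∀ a c e j,
        Tendsto (fun N : ℕ => (cnt (T σ N a) c e j : ℝ) / ((T σ N a).length : ℝ)) atTop
          (𝓝 (gam c e j))) ∧
      ∀ (G : List (Fin d) → ℂ) (w : ℕ) (ν : Measure (AddCircle (1 : ℝ))),
        IsSpec μ sh (fun x => G (List.ofFn (fun j : Fin w => x ((j : ℕ) : ℤ)))) ν → Cor σ G w ν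

def ST_GF : Prop :=
  ∀ (d : ℕ) (σ : Fin d → List (Fin d)) (M : Matrix (Fin d) (Fin d) ℤ) (θ : ℝ)
    (L f : Fin d → ℝ) (gam : Fin d → Fin d → (Fin d → ℤ) → ℝ), Dyn σ M θ L f gam → GamF L gam

/-! ### the limit relation -/

def ST_KER : Prop :=
  ∀ ν : Measure (AddCircle (1 : ℝ)), IsFiniteMeasure ν → ¬ ν.MutuallySingular volume →
    ∃ O C ρ W, KO ν O C ρ W

/-- choice of the set (input of `ST_KER`) -/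
def ST_SET : Prop :=
  ∀ ν : Measure (AddCircle (1 : ℝ)), IsFiniteMeasure ν → ¬ ν.MutuallySingular volume →
    ∃ (O : Set (AddCircle (1 : ℝ))) (C : ℝ) (ρ : AddCircle (1 : ℝ) → ℝ)
      (νs : Measure (AddCircle (1 : ℝ))),
      IsClosed O ∧ (∀ N : ℕ, ∀ s ∈ O, KN ν N s ≤ C * N) ∧ IsFiniteMeasure νs ∧ νs O = 0 ∧
      Measurable ρ ∧ (∀ ω, 0 ≤ ρ ω) ∧ Integrable ρ AddCircle.haarAddCircle ∧
      ν = νs + AddCircle.haarAddCircle.withDensity (fun ω => ENNReal.ofReal (ρ ω)) ∧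
      0 < ∫ ω in O, ρ ω ∂AddCircle.haarAddCircle

/-- the kernel (input of `ST_KER`) -/
def ST_JAC : Prop :=
  ∃ J : ℕ → AddCircle (1 : ℝ) → ℝ, (∀ n, Continuous (J n)) ∧ (∀ n ω, 0 ≤ J n ω) ∧
    (∀ n, 1 ≤ n → ∫ ω, J n ω ∂AddCircle.haarAddCircle = 1) ∧
    (∀ n, ∃ c : ℤ → ℂ, ∀ ω, (J n ω : ℂ) = tp (2 * n) c ω) ∧
    ∀ n : ℕ, 1 ≤ n → ∫ ω, J n ω * ‖(fourier 1 ω : ℂ) - 1‖ ^ 2 ∂AddCircle.haarAddCircle ≤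
      8 / (n : ℝ) ^ 2

def ST_BD : Prop :=
  ∀ (d : ℕ) (σ : Fin d → List (Fin d)) (M : Matrix (Fin d) (Fin d) ℤ) (θ : ℝ)
    (X : Set (ℤ → Fin d)), Sys σ M θ X → 1 < θ →
    ∀ μ : Measure (ℤ → Fin d), IsProbabilityMeasure μ → μ Xᶜ = 0 →
      MeasurePreserving (sh (d := d)) μ μ →
      ∀ (G : List (Fin d) → ℂ) (w : ℕ) (ν : Measure (AddCircle (1 : ℝ))),
        IsSpec μ sh (fun x => G (List.ofFn (fun j : Fin w => x ((j : ℕ) : ℤ)))) ν →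
        ∀ (O : Set (AddCircle (1 : ℝ))) (C : ℝ), (∀ N : ℕ, ∀ s ∈ O, KN ν N s ≤ C * N) →
          BDO σ θ G w O

/-- convergence of the quadratic means along the tiles -/
def ST_IDA : Prop :=
  ∀ (d : ℕ) (σ : Fin d → List (Fin d)) (G : List (Fin d) → ℂ) (w : ℕ)
    (ν : Measure (AddCircle (1 : ℝ))), Cor σ G w ν → ∀ (a : Fin d) (N : ℕ) (φ : ℤ → ℂ),
      Tendsto (fun m : ℕ => (∫ ω, tp N φ ω * ((‖Ek σ G w m a ω‖ ^ 2 : ℝ) : ℂ)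
        ∂AddCircle.haarAddCircle) / (((T σ m a).length : ℕ) : ℂ)) atTop
        (𝓝 (∫ ω, tp N φ ω ∂ν))

/-- square mean of the boundary terms -/
def ST_IDB : Prop :=
  ∀ (d : ℕ) (τ : Fin d → List (Fin d)) (G : List (Fin d) → ℂ) (w : ℕ) (B : ℝ), 0 ≤ B →
    (∀ v : List (Fin d), v.length = w → ‖G v‖ ≤ B) → ∀ V : List (Fin d),
      (∫ ω, ‖TS G w (zc ω) (V.flatMap τ) -
          WS (fun c => zc ω ^ (τ c).length) (fun c => TS G w (zc ω) (τ c)) V‖ ^ 2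
            ∂AddCircle.haarAddCircle ≤ w * B ^ 2 * V.length) ∧
      ∫ ω, ‖TS G w (zc ω) V‖ ^ 2 ∂AddCircle.haarAddCircle ≤ B ^ 2 * V.length

/-- limit of the quadratic means of the tile decomposition -/
def ST_IDC : Prop :=
  ∀ (d : ℕ) (σ : Fin d → List (Fin d)) (M : Matrix (Fin d) (Fin d) ℤ) (θ : ℝ)
    (L f : Fin d → ℝ) (gam : Fin d → Fin d → (Fin d → ℤ) → ℝ), Dyn σ M θ L f gam →
    ∀ (G : List (Fin d) → ℂ) (w : ℕ) (a : Fin d) (k N : ℕ) (φ : ℤ → ℂ),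
      Tendsto (fun m : ℕ => (∫ ω, tp N φ ω * ((‖WS (fun c => zc ω ^ (T σ k c).length)
        (fun c => Ek σ G w k c ω) (T σ m a)‖ ^ 2 : ℝ) : ℂ)
        ∂AddCircle.haarAddCircle) / (((T σ (m + k) a).length : ℕ) : ℂ)) atTop
        (𝓝 (∑ᶠ j : Fin d → ℤ, ∑ c, ∑ e, (gam c e j : ℂ) * ((θ ^ k : ℝ) : ℂ)⁻¹ *
          ∫ ω, tp N φ ω * Ek σ G w k c ω * conj (Ek σ G w k e ω) * fourier (lk σ k j) ω
            ∂AddCircle.haarAddCircle))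

def ST_IDN : Prop :=
  ∀ (d : ℕ) (σ : Fin d → List (Fin d)) (M : Matrix (Fin d) (Fin d) ℤ) (θ : ℝ)
    (L f : Fin d → ℝ) (gam : Fin d → Fin d → (Fin d → ℤ) → ℝ), Dyn σ M θ L f gam →
    ∀ (G : List (Fin d) → ℂ) (w : ℕ) (ν : Measure (AddCircle (1 : ℝ))), Cor σ G w ν →
      ∃ C : ℝ, ∀ (k N : ℕ) (φ : ℤ → ℂ) (Φ : ℝ), (∀ ω, ‖tp N φ ω‖ ≤ Φ) →
        ‖(∫ ω, tp N φ ω ∂ν) - ∑ᶠ j : Fin d → ℤ, ∑ c, ∑ e, (gam c e j : ℂ) *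
          ((θ ^ k : ℝ) : ℂ)⁻¹ *
          ∫ ω, tp N φ ω * Ek σ G w k c ω * conj (Ek σ G w k e ω) * fourier (lk σ k j) ω
            ∂AddCircle.haarAddCircle‖ ≤ C * Φ / Real.sqrt (θ ^ k)

def ST_CONV : Prop :=
  ∀ (d : ℕ) (σ : Fin d → List (Fin d)) (M : Matrix (Fin d) (Fin d) ℤ) (θ : ℝ)
    (L f : Fin d → ℝ) (gam : Fin d → Fin d → (Fin d → ℤ) → ℝ), Dyn σ M θ L f gam →
    ∀ (G : List (Fin d) → ℂ) (w : ℕ) (ν : Measure (AddCircle (1 : ℝ))), Cor σ G w ν →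
      ∀ (O : Set (AddCircle (1 : ℝ))) (C : ℝ) (ρ : AddCircle (1 : ℝ) → ℝ)
        (W : ℕ → AddCircle (1 : ℝ) → ℝ), KO ν O C ρ W → BDO σ θ G w O →
        ∃ U K Dh R0, CV L gam U K Dh R0

def ST_SPL : Prop :=
  ∀ (d : ℕ) (L : Fin d → ℝ) (U : AddSubgroup (Fin d → ℤ)), (∀ u ∈ U, len L u = 0) →
    (∀ (k : ℤ) (u : Fin d → ℤ), k ≠ 0 → k • u ∈ U → u ∈ U) →
    ∃ (s n : ℕ) (p : (Fin d → ℤ) →+ (Fin s → ℤ)) (q : (Fin d → ℤ) →+ (Fin n → ℤ))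
      (v : (Fin n → ℤ) →+ ℝ), SP L U p q v

def ST_FIB : Prop :=
  ∀ (d : ℕ) (L : Fin d → ℝ) (gam : Fin d → Fin d → (Fin d → ℤ) → ℝ), GamF L gam →
    ∀ (U : AddSubgroup (Fin d → ℤ)) (K : (Fin d → ℤ) → Fin d → Fin d → ℂ)
      (Dh : (Fin d → ℤ) → ℂ) (R0 : ℝ), CV L gam U K Dh R0 →
    ∀ (s n : ℕ) (p : (Fin d → ℤ) →+ (Fin s → ℤ)) (q : (Fin d → ℤ) →+ (Fin n → ℤ))
      (v : (Fin n → ℤ) →+ ℝ), SP L U p q v →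
    ∃ GG : Set (UnitAddTorus (Fin s)), (tor s) GG ≠ 0 ∧ ∀ η ∈ GG,
      ∃ (D : ℂ) (K' : (Fin n → ℤ) → Fin d × Fin d → ℂ), D ≠ 0 ∧
        (∀ m, R0 < |v m| → K' m = 0) ∧
        ∀ m1, ∑ᶠ m : Fin n → ℤ, ∑ i : Fin d × Fin d, Bc gam p q i.1 i.2 (m1 - m) η * K' m i =
          if m1 = 0 then D else 0

/-! ### the dimension argument -/

/-- from `ST_DIM` of helper51 -/
def ST_D : Prop :=
  ∀ (s n : ℕ) (I : Type) [Fintype I] (v : (Fin n → ℤ) →+ ℝ)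
    (g : I → (Fin n → ℤ) → C(UnitAddTorus (Fin s), ℂ)), Function.Injective v →
    (∀ i m, g i m ∈ mFourierSubalgebra (Fin s)) →
    (∀ R : ℝ, {m | |v m| ≤ R ∧ ∃ i, g i m ≠ 0}.Finite) → ∀ R0 : ℝ, 0 ≤ R0 →
    ∀ GG : Set (UnitAddTorus (Fin s)), (tor s) GG ≠ 0 →
    (∀ η ∈ GG, ∃ (D : ℂ) (K : (Fin n → ℤ) → I → ℂ), D ≠ 0 ∧ (∀ m, R0 < |v m| → K m = 0) ∧
      ∀ m1, ∑ᶠ m : Fin n → ℤ, ∑ i, g i (m1 - m) η * K m i = if m1 = 0 then D else 0) →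
    ∀ᵐ η ∂(tor s), ∃ (t : ℝ) (K : (Fin n → ℤ) → I → ℂ),
      (Summable fun m => ∑ i, ‖K m i‖ ^ 2) ∧ (∀ m, R0 + 1 < |v m + t| → K m = 0) ∧
      (∀ m1, 1 < |v m1 + t| → ∑ᶠ m : Fin n → ℤ, ∑ i, g i (m1 - m) η * K m i = 0) ∧
      ∃ m1, ∑ᶠ m : Fin n → ℤ, ∑ i, g i (m1 - m) η * K m i ≠ 0

/-! ### the fibre analysis -/

def ST_PDE : Prop :=
  ∀ (d : ℕ) (σ : Fin d → List (Fin d)) (M : Matrix (Fin d) (Fin d) ℤ) (θ : ℝ)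
    (L f : Fin d → ℝ) (gam : Fin d → Fin d → (Fin d → ℤ) → ℝ), Dyn σ M θ L f gam →
    ∀ (s n : ℕ) (p : (Fin d → ℤ) →+ (Fin s → ℤ)) (q : (Fin d → ℤ) →+ (Fin n → ℤ))
      (v : (Fin n → ℤ) →+ ℝ), (∀ j, v (q j) = len L j) → ∀ η : UnitAddTorus (Fin s),
      PDM v (fun m a b => Bc gam p q a b m η)

def ST_E1 : Prop :=
  ∀ (n : ℕ) (b : (Fin n → ℤ) → ℂ), (∀ m, b (-m) = conj (b m)) →
    (∀ (S : Finset (Fin n → ℤ)) (c : (Fin n → ℤ) → ℂ),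
      0 ≤ (∑ m ∈ S, ∑ m' ∈ S, c m * conj (c m') * b (m' - m)).re) → b 0 = 1 →
    ∃ β : Measure (UnitAddTorus (Fin n)), IsProbabilityMeasure β ∧
      ∀ m, ∫ x, mFourier m x ∂β = b m

def ST_E2 : Prop :=
  ∀ (n d : ℕ) (v : (Fin n → ℤ) →+ ℝ) (B : (Fin n → ℤ) → Fin d → Fin d → ℂ), PDM v B →
    ∀ β : Measure (UnitAddTorus (Fin n)), IsProbabilityMeasure β →
      (∀ m, ∫ x, mFourier m x ∂β = ∑ a, B m a a) →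
      ∀ a b, ∃ h : UnitAddTorus (Fin n) → ℂ, MemLp h 2 β ∧
        ∀ m, ∫ x, mFourier m x * h x ∂β = B m a b

def ST_E3 : Prop :=
  ∀ (n : ℕ) (v : (Fin n → ℤ) →+ ℝ) (β : Measure (UnitAddTorus (Fin n))),
    IsProbabilityMeasure β → ∀ δ : ℝ, 0 < δ →
    (∀ m, m ≠ 0 → |v m| < δ → ∫ x, mFourier m x ∂β = 0) →
    ∀ (K : (Fin n → ℤ) → ℂ), (Summable fun m => ‖K m‖ ^ 2) → ∀ t R : ℝ,
      (∀ m, R < |v m + t| → K m = 0) →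
      ∃ F : UnitAddTorus (Fin n) → ℂ, MemLp F 2 β ∧
        ∀ h : UnitAddTorus (Fin n) → ℂ, MemLp h 2 β →
          HasSum (fun m => K m * ∫ x, mFourier (-m) x * h x ∂β) (∫ x, F x * h x ∂β)

def ST_E4 : Prop :=
  ∀ (n : ℕ) (β : Measure (UnitAddTorus (Fin n))), IsFiniteMeasure β →
    ∀ g F : UnitAddTorus (Fin n) → ℂ, Integrable g β → Integrable F (tor n) →
    (∀ m, ∫ x, mFourier m x * g x ∂β = ∫ x, mFourier m x * F x ∂(tor n)) →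
    (∀ᵐ x ∂(tor n), F x ≠ 0) → tor n ≪ β

def ST_E5 : Prop :=
  ∀ (n : ℕ) (v : (Fin n → ℤ) →+ ℝ), Function.Injective v →
    ∀ F : UnitAddTorus (Fin n) → ℂ, MemLp F 2 (tor n) → ∀ t R : ℝ,
    (∀ m, R < |v m + t| → ∫ x, mFourier m x * F x ∂(tor n) = 0) →
    (∃ m, ∫ x, mFourier m x * F x ∂(tor n) ≠ 0) → ∀ᵐ x ∂(tor n), F x ≠ 0

def ST_E6 : Prop :=
  ∀ (n : ℕ) (v : (Fin n → ℤ) →+ ℝ) (t : ℝ), 0 < t →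
    ∃ κ : Measure (UnitAddTorus (Fin n)), IsProbabilityMeasure κ ∧
      ∀ m, ∫ x, mFourier m x ∂κ = ((ww (v m / t) : ℝ) : ℂ)

def ST_E7 : Prop :=
  ∀ (n : ℕ) (v : (Fin n → ℤ) →+ ℝ) (β : Measure (UnitAddTorus (Fin n))),
    IsProbabilityMeasure β → tor n ≪ β → ∀ b : (Fin n → ℤ) → ℂ,
    (∀ m, ∫ x, mFourier m x ∂β = b m) → (∀ R : ℝ, {m | |v m| ≤ R ∧ b m ≠ 0}.Finite) →
    PosLim (VE v b)

def ST_E : Prop :=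
  ∀ (n d : ℕ) (v : (Fin n → ℤ) →+ ℝ) (B : (Fin n → ℤ) → Fin d → Fin d → ℂ),
    Function.Injective v → PDM v B → ∀ R0 t : ℝ, ∀ K : (Fin n → ℤ) → Fin d × Fin d → ℂ,
    (Summable fun m => ∑ i, ‖K m i‖ ^ 2) → (∀ m, R0 + 1 < |v m + t| → K m = 0) →
    (∀ m1, 1 < |v m1 + t| → ∑ᶠ m : Fin n → ℤ, ∑ i : Fin d × Fin d,
      B (m1 - m) i.1 i.2 * K m i = 0) →
    (∃ m1, ∑ᶠ m : Fin n → ℤ, ∑ i : Fin d × Fin d, B (m1 - m) i.1 i.2 * K m i ≠ 0) →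
    PosLim (VE v (fun m => ∑ a, B m a a))

def ST_LINK : Prop :=
  ∀ (d : ℕ) (L : Fin d → ℝ) (gam : Fin d → Fin d → (Fin d → ℤ) → ℝ), GamF L gam →
    ∀ (s n : ℕ) (p : (Fin d → ℤ) →+ (Fin s → ℤ)) (q : (Fin d → ℤ) →+ (Fin n → ℤ))
      (v : (Fin n → ℤ) →+ ℝ), (∀ j, v (q j) = len L j) →
      (∀ a b m, Bc gam p q a b m ∈ mFourierSubalgebra (Fin s)) ∧
      (∀ R : ℝ, {m | |v m| ≤ R ∧ ∃ i : Fin d × Fin d, Bc gam p q i.1 i.2 m ≠ 0}.Finite) ∧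
      ∀ t : ℝ, 0 < t →
        (∀ (η : UnitAddTorus (Fin s)) (x : UnitAddTorus (Fin n)),
          VV gam L (yv p q η x) t = VE v (fun m => ∑ a, Bc gam p q a a m η) t x) ∧
        (Measurable fun z : UnitAddTorus (Fin s) × UnitAddTorus (Fin n) =>
          VV gam L (yv p q z.1 z.2) t) ∧
        ∀ η : UnitAddTorus (Fin s), Integrable (fun x => VV gam L (yv p q η x) t) (tor n) ∧
          ∫ x, VV gam L (yv p q η x) t ∂(tor n) = 1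

/-! ### energies of words -/

def ST_WW : Prop :=
  ∀ (ℓ : ℕ) (p : ℕ → ℝ) (z : ℕ → ℂ) (t : ℝ), 0 < t →
    (t ^ 2 / 2) * ∑ i ∈ range ℓ, ∑ i' ∈ range ℓ, (z i * conj (z i')).re * ww ((p i - p i') / t) =
      ∫ s in (0 : ℝ)..t, ∫ x : ℝ, ‖∑ i ∈ range ℓ, if x ≤ p i ∧ p i < x + s then z i else 0‖ ^ 2

def ST_WW1 : Prop :=
  ∀ (d ℓ : ℕ) (p : ℕ → ℝ) (z : Fin d → ℕ → ℂ) (t δ : ℝ), 0 < t → 0 < δ →
    (∀ i < ℓ, p i + δ ≤ p (i + 1)) →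
    δ ^ 2 * ∑ i ∈ range (ℓ + 1), ∑ i' ∈ range (ℓ + 1), (if i < i' ∧ p i' - p i + δ ≤ t then
      ∑ c, ‖∑ r ∈ Ico i i', z c r‖ ^ 2 else 0) ≤
    (t ^ 2 / 2) * ∑ c, ∑ i ∈ range ℓ, ∑ i' ∈ range ℓ,
      (z c i * conj (z c i')).re * ww ((p i - p i') / t)

def ST_WW2 : Prop :=
  ∀ (d ℓ : ℕ) (p : ℕ → ℝ) (z : Fin d → ℕ → ℂ) (t Mx : ℝ), 0 < t →
    (∀ i < ℓ, p i ≤ p (i + 1)) →
    (∀ i i' : ℕ, i ≤ i' → i' ≤ ℓ → (i < i' → p (i' - 1) - p i < t) →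
      ∑ c, ‖∑ r ∈ Ico i i', z c r‖ ^ 2 ≤ Mx) →
    (t ^ 2 / 2) * ∑ c, ∑ i ∈ range ℓ, ∑ i' ∈ range ℓ,
      (z c i * conj (z c i')).re * ww ((p i - p i') / t) ≤ t * (p ℓ - p 0 + t) * Mx

def ST_WREP : Prop :=
  ∀ (d : ℕ) (σ : Fin d → List (Fin d)) (M : Matrix (Fin d) (Fin d) ℤ) (θ : ℝ)
    (L f : Fin d → ℝ) (gam : Fin d → Fin d → (Fin d → ℤ) → ℝ), Dyn σ M θ L f gam →
    ∀ (y : Fin d → ℂ), (∀ a, ‖y a‖ = 1) → ∀ t : ℝ, 0 < t →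
      0 ≤ VV gam L y t ∧ ∀ a : Fin d,
        Tendsto (fun N : ℕ => qf L y t (T σ N a) / ((T σ N a).length : ℝ)) atTop
          (𝓝 (VV gam L y t))

def ST_WUP : Prop :=
  ∀ (d : ℕ) (σ : Fin d → List (Fin d)) (M : Matrix (Fin d) (Fin d) ℤ) (θ : ℝ)
    (L f : Fin d → ℝ) (gam : Fin d → Fin d → (Fin d → ℤ) → ℝ), Dyn σ M θ L f gam →
    ∃ C0 CU : ℝ, 0 < C0 ∧ 0 ≤ CU ∧ ∀ (y : Fin d → ℂ), (∀ a, ‖y a‖ = 1) →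
      ∀ (k : ℕ) (b : Fin d),
        ∑ u ∈ range ((T σ k b).length + 1), ∑ u' ∈ range ((T σ k b).length + 1), ∑ c,
          ‖Fc y c (T σ k b) u - Fc y c (T σ k b) u'‖ ^ 2 ≤
            CU * θ ^ (3 * k) * VV gam L y (C0 * θ ^ k)

def ST_WLO : Prop :=
  ∀ (d : ℕ) (σ : Fin d → List (Fin d)) (M : Matrix (Fin d) (Fin d) ℤ) (θ : ℝ)
    (L f : Fin d → ℝ) (gam : Fin d → Fin d → (Fin d → ℤ) → ℝ), Dyn σ M θ L f gam →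
    ∃ Cm : ℝ, 0 ≤ Cm ∧ ∀ (y : Fin d → ℂ), (∀ a, ‖y a‖ = 1) → ∀ t ρ : ℝ, 0 < t → 0 < ρ →
      ρ ≤ VV gam L y t → ∃ W : List (Fin d), (∃ n a, W <:+: T σ n a) ∧
        len L (ab W) ≤ t + Cm ∧ ρ * t / 4 ≤ ∑ c, ‖WS y (Pi.single c 1) W‖ ^ 2

/-- `C0`, `C1` as in the conclusion of `ST_WEST` -/
def WE {d : ℕ} (σ : Fin d → List (Fin d)) (θ : ℝ) (L : Fin d → ℝ)
    (gam : Fin d → Fin d → (Fin d → ℤ) → ℝ) (C0 C1 : ℝ) : Prop :=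
  0 < C0 ∧ 0 ≤ C1 ∧ ∀ (y : Fin d → ℂ), (∀ a, ‖y a‖ = 1) → ∀ k : ℕ,
    (∀ b c, ‖EW σ y k b c‖ ≤ C1 * (1 + ∑ i ∈ range (k + 1),
      Real.sqrt (θ ^ i * VV gam L y (C0 * θ ^ i)))) ∧
    ∀ b c p, (p <+: T σ k b ∨ p <:+ T σ k b) → ‖WS y (Pi.single c 1) p‖ ≤
      C1 * (((k : ℝ) + 1) + ∑ i ∈ range (k + 1), ((k : ℝ) - i + 1) *
        Real.sqrt (θ ^ i * VV gam L y (C0 * θ ^ i)))

def ST_WEST : Prop :=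
  ∀ (d : ℕ) (σ : Fin d → List (Fin d)) (M : Matrix (Fin d) (Fin d) ℤ) (θ : ℝ)
    (L f : Fin d → ℝ) (gam : Fin d → Fin d → (Fin d → ℤ) → ℝ), Dyn σ M θ L f gam →
    ∃ C0 C1 : ℝ, WE σ θ L gam C0 C1

/-- conditions at level `k` -/
def Cnd (θ C0 K1 ρ : ℝ) (k n' n0 : ℕ) (V : ℝ → ℝ) : Prop :=
  n' ≤ k ∧ (∀ i, k ≤ i + n' → i ≤ k + n0 → V (C0 * θ ^ i) ≤ 4 * ρ) ∧
  (∀ i, k ≤ i → i ≤ k + n0 → ρ ≤ V (K1 * θ ^ i)) ∧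
  ∑ i ∈ range (k - n'), ((k : ℝ) - i + 1) * Real.sqrt (θ ^ i * V (C0 * θ ^ i)) ≤
    Real.sqrt (ρ * θ ^ k)

def WF {d : ℕ} (σ : Fin d → List (Fin d)) (θ : ℝ) (L : Fin d → ℝ)
    (gam : Fin d → Fin d → (Fin d → ℤ) → ℝ) (C0 K1 CF cF : ℝ) : Prop :=
  0 < C0 ∧ 0 < K1 ∧ 0 < CF ∧ 0 < cF ∧ ∀ (y : Fin d → ℂ), (∀ a, ‖y a‖ = 1) → ∀ ρ : ℝ, 0 < ρ →
    ∀ k n' n0 : ℕ, ((k : ℝ) + 1) ≤ Real.sqrt (ρ * θ ^ k) →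
      Cnd θ C0 K1 ρ k n' n0 (VV gam L y) → ∀ i, k ≤ i → i ≤ k + n0 →
        (∀ b c, ‖EW σ y i b c‖ ≤ CF * Real.sqrt (ρ * θ ^ i)) ∧
        ∃ b c, cF * Real.sqrt (ρ * θ ^ i) ≤ ‖EW σ y i b c‖

def ST_WFLAT : Prop :=
  ∀ (d : ℕ) (σ : Fin d → List (Fin d)) (M : Matrix (Fin d) (Fin d) ℤ) (θ : ℝ)
    (L f : Fin d → ℝ) (gam : Fin d → Fin d → (Fin d → ℤ) → ℝ), Dyn σ M θ L f gam →
    ∃ C0 K1 CF cF : ℝ, WF σ θ L gam C0 K1 CF cF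

/-! ### assembly -/

def ST_Z1 : Prop :=
  ∀ (s n : ℕ) (V : ℝ → UnitAddTorus (Fin s) × UnitAddTorus (Fin n) → ℝ) (θ C0 K1 : ℝ),
    1 < θ → 0 < C0 → 0 < K1 → (∀ t, 0 < t → Measurable (V t)) → (∀ t, 0 < t → ∀ z, 0 ≤ V t z) →
    (∀ t, 0 < t → ∀ η, Integrable (fun x => V t (η, x)) (tor n) ∧
      ∫ x, V t (η, x) ∂(tor n) ≤ 1) →
    (∀ᵐ η ∂(tor s), PosLim (fun t x => V t (η, x))) →
    ∀ δ : ℝ, 0 < δ → ∀ n0 : ℕ, ∃ (c0 : ℝ) (n' k0 : ℕ), 0 < c0 ∧ ∀ k, k0 ≤ k →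
      ((tor s).prod (tor n)) {z | ¬ ∃ ρ, c0 ≤ ρ ∧ Cnd θ C0 K1 ρ k n' n0 (fun t => V t z)} ≤
        ENNReal.ofReal δ

def ST_Z2 : Prop :=
  ∀ (d : ℕ) (ε : ℝ), 0 < ε → ∃ c : ℝ, 0 < c ∧ ∀ (G : Type) [AddCommGroup G] [MeasurableSpace G]
    (P : Measure G), IsProbabilityMeasure P →
    (∀ (g : G) (A : Set G), P ((fun x => x - g) ⁻¹' A) = P A) →
    ∀ χ : Fin d → G → ℂ, (∀ a, Measurable (χ a)) → (∀ a x, ‖χ a x‖ = 1) →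
      (∀ a x y, χ a (x - y) = χ a x * conj (χ a y)) →
      ENNReal.ofReal c ≤ P {x | ∀ a, ‖χ a x - 1‖ < ε}

def ST_Z3 : Prop :=
  ∀ (d : ℕ) (σ : Fin d → List (Fin d)) (M : Matrix (Fin d) (Fin d) ℤ) (θ : ℝ)
    (L f : Fin d → ℝ) (gam : Fin d → Fin d → (Fin d → ℤ) → ℝ), Dyn σ M θ L f gam →
    ∀ (C0 K1 CF cF : ℝ), WF σ θ L gam C0 K1 CF cF →
    ∀ (s n : ℕ) (p : (Fin d → ℤ) →+ (Fin s → ℤ)) (q : (Fin d → ℤ) →+ (Fin n → ℤ))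
      (v : (Fin n → ℤ) →+ ℝ), (∀ j, v (q j) = len L j) →
      (∀ᵐ η ∂(tor s), PosLim (fun t x => VV gam L (yv p q η x) t)) →
      ∀ n0 : ℕ, ∃ W : Fin d → Fin d → ℂ, ∀ i ≤ n0,
        (∀ b c, ‖∑ a, (((M ^ i) a b : ℤ) : ℂ) * W a c‖ ≤ 2 * CF * Real.sqrt (θ ^ i)) ∧
        ∃ b c, cF / 2 * Real.sqrt (θ ^ i) ≤ ‖∑ a, (((M ^ i) a b : ℤ) : ℂ) * W a c‖

def ST_Z4 : Prop :=
  ∀ (d : ℕ) (M : Matrix (Fin d) (Fin d) ℤ) (θ CF cF : ℝ), 1 < θ → 0 < cF →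
    (∀ n0 : ℕ, ∃ W : Fin d → Fin d → ℂ, ∀ i ≤ n0,
        (∀ b c, ‖∑ a, (((M ^ i) a b : ℤ) : ℂ) * W a c‖ ≤ 2 * CF * Real.sqrt (θ ^ i)) ∧
        ∃ b c, cF / 2 * Real.sqrt (θ ^ i) ≤ ‖∑ a, (((M ^ i) a b : ℤ) : ℂ) * W a c‖) →
    ∃ z : ℂ, (M.map (Int.cast : ℤ → ℂ)).charpoly.IsRoot z ∧ ‖z‖ ^ 2 = θ

/-- The main theorem for window functions. -/
def ST_MAIN : Prop :=
  ∀ (d : ℕ) (σ : Fin d → List (Fin d)) (M : Matrix (Fin d) (Fin d) ℤ) (θ : ℝ)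
    (X : Set (ℤ → Fin d)), Sys σ M θ X → 1 < θ →
    ∀ μ : Measure (ℤ → Fin d), IsProbabilityMeasure μ → μ Xᶜ = 0 →
      MeasurePreserving (sh (d := d)) μ μ →
      ∀ (G : List (Fin d) → ℂ) (w : ℕ) (ν : Measure (AddCircle (1 : ℝ))),
        IsSpec μ sh (fun x => G (List.ofFn (fun j : Fin w => x ((j : ℕ) : ℤ)))) ν →
        ¬ ν.MutuallySingular volume →
        ∃ z : ℂ, (M.map (Int.cast : ℤ → ℂ)).charpoly.IsRoot z ∧ ‖z‖ ^ 2 = θ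

end Pool.Agent.Helper97.FS
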